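import Pool.Agent.Y943.SL.Pol

/-!
Self-avoiding polygons on the square lattice: the asymptotics `p_{2n} ~ C μ^(2n) n^(-θ)` needs to be
proved only along a set of `n` with gaps `o(√n)`, its order only along a set with gaps `O(√n)`, and
the exponent only along a set with gaps `o(√(n log n))`.
-/

set_option autoImplicit false

namespace Pool.Agent.Results.MP_376faf_co.SparseLengths

open Filter Topology

/-- the number of `n`-step self-avoiding walks on `ℤ²` started at the origin -/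
noncomputable def c (n : ℕ) : ℕ :=
  Nat.card {f : Fin (n + 1) → ℤ × ℤ // f 0 = 0 ∧ Function.Injective f ∧
    ∀ i : Fin n, |(f i.succ).1 - (f i.castSucc).1| + |(f i.succ).2 - (f i.castSucc).2| = 1}

/-- the number of self-avoiding polygons of perimeter `2n` on `ℤ²` up to translation: the number
of injective nearest-neighbour closed loops `f : ℤ/2n → ℤ²` with `f 0 = 0`, divided by `4n` (the
choices of the starting point and of the orientation) -/
noncomputable def p (n : ℕ) : ℝ :=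
  ((Nat.card {f : ZMod (2*n) → ℤ × ℤ // f 0 = 0 ∧ Function.Injective f ∧
    ∀ i : ZMod (2*n), |(f (i+1)).1 - (f i).1| + |(f (i+1)).2 - (f i).2| = 1} : ℕ) : ℝ)
    / (4 * (n:ℝ))

lemma c_eq (n : ℕ) : (c n : ℝ) = H981.cr' n := by
  rw [H981.cr'_eq]
  unfold c H981.C H981.IsSAW
  congr 1
  apply Nat.card_congr
  apply Equiv.subtypeEquivRight
  intro f
  constructor
  · rintro ⟨h0, h1, h2⟩
    exact ⟨h0, h2, h1⟩
  · rintro ⟨h0, h2, h1⟩
    exact ⟨h0, h1, h2⟩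

lemma p_eq (n : ℕ) : p n = H981.PP n := rfl

/-- the gaps of the set `S` are `o(√n)` -/
def SmallGaps (S : Set ℕ) : Prop :=
  ∀ δ : ℝ, 0 < δ → ∀ᶠ n : ℕ in atTop, ∃ m ∈ S, n ≤ m ∧ (m : ℝ) ≤ n + δ * Real.sqrt n

/-- the gaps of the set `S` are `O(√n)` -/
def BoundedGaps (S : Set ℕ) : Prop :=
  ∃ K : ℝ, ∀ᶠ n : ℕ in atTop, ∃ m ∈ S, n ≤ m ∧ (m : ℝ) ≤ n + K * Real.sqrt n

/-- the gaps of the set `S` are `o(√(n log n))` -/
def LogGaps (S : Set ℕ) : Prop :=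
  ∀ δ : ℝ, 0 < δ → ∀ᶠ n : ℕ in atTop, ∃ m ∈ S, n ≤ m ∧
    (m : ℝ) ≤ n + δ * Real.sqrt (n * Real.log n)

/-- **Theorem.** Let `μ` be the connective constant of `ℤ²` and `q_n = p_{2n} μ^(-2n)`.  For every set
`S` of natural numbers and every real `θ`:
(1) if `S` has gaps `o(√n)` and `q_n n^θ → C`, `0 < C < ∞`, along `S`, then `q_n n^θ → C`;
(2) if `S` has gaps `O(√n)` and `q_n n^θ` is bounded and bounded away from `0` along `S`, then it is
bounded and bounded away from `0`;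
(3) if `S` has gaps `o(√(n log n))` and `log q_n / log n → -θ` along `S`, then
`log q_n / log n → -θ`. -/
theorem result : ∃ μ : ℝ, 0 < μ ∧
    Tendsto (fun n : ℕ => (c n : ℝ) ^ ((1:ℝ) / (n : ℝ))) atTop (𝓝 μ) ∧
    ∀ (S : Set ℕ) (θ : ℝ),
      (SmallGaps S → ∀ C : ℝ, 0 < C →
        Tendsto (fun n : ℕ => p n / μ ^ (2 * n) * (n : ℝ) ^ θ) (atTop ⊓ 𝓟 S) (𝓝 C) →
        Tendsto (fun n : ℕ => p n / μ ^ (2 * n) * (n : ℝ) ^ θ) atTop (𝓝 C)) ∧
      (BoundedGaps S →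
        (∃ a b : ℝ, 0 < a ∧ ∀ᶠ n : ℕ in atTop, n ∈ S →
          a ≤ p n / μ ^ (2 * n) * (n : ℝ) ^ θ ∧ p n / μ ^ (2 * n) * (n : ℝ) ^ θ ≤ b) →
        ∃ a b : ℝ, 0 < a ∧ ∀ᶠ n : ℕ in atTop,
          a ≤ p n / μ ^ (2 * n) * (n : ℝ) ^ θ ∧ p n / μ ^ (2 * n) * (n : ℝ) ^ θ ≤ b) ∧
      (LogGaps S →
        Tendsto (fun n : ℕ => Real.log (p n / μ ^ (2 * n)) / Real.log n) (atTop ⊓ 𝓟 S)
          (𝓝 (-θ)) →
        Tendsto (fun n : ℕ => Real.log (p n / μ ^ (2 * n)) / Real.log n) atTop (𝓝 (-θ))) := by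
  refine ⟨H981.mu, H981.mu_pos, ?_, fun S θ => ⟨fun hS C hC h => ?_, fun hS h => ?_,
    fun hS h => ?_⟩⟩
  · simp only [c_eq]
    exact H981.tendsto_root
  · exact Pool.Agent.Y943.SL.pol_form S hS C θ hC h
  · exact Pool.Agent.Y943.SL.pol_bdd S hS θ h
  · exact Pool.Agent.Y943.SL.pol_expo S hS θ h

end Pool.Agent.Results.MP_376faf_co.SparseLengths
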