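import Pool.Agent.Y365.SP.WidePt

/-!
Self-avoiding polygons on the square lattice: for all `n ≥ 2` and `h ≥ 1` the number of the
polygons of perimeter `2n` whose width or height is at least `h` is at most `K μ^(2n) / (h √n)`,
and the number of those of area at least `h` is at most `K μ^(2n) / √(h n)`.
-/

namespace Pool.Agent.Results.MP_376faf_co.WidePolygons

open Filter Topology

/-- the number of `n`-step self-avoiding walks on `ℤ²` started at the origin -/
noncomputable def c (n : ℕ) : ℕ :=
  Nat.card {f : Fin (n + 1) → ℤ × ℤ // f 0 = 0 ∧ Function.Injective f ∧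
    ∀ i : Fin n, |(f i.succ).1 - (f i.castSucc).1| + |(f i.succ).2 - (f i.castSucc).2| = 1}

/-- a closed nearest-neighbour loop on `ℤ²` with `m` steps, rooted at the origin and oriented,
that visits no vertex twice -/
def IsLoop (m : ℕ) (f : ZMod m → ℤ × ℤ) : Prop :=
  f 0 = 0 ∧ Function.Injective f ∧
    ∀ i : ZMod m, |(f (i + 1)).1 - (f i).1| + |(f (i + 1)).2 - (f i).2| = 1

/-- the width (horizontal extent) of a loop -/
noncomputable def width (m : ℕ) (f : ZMod m → ℤ × ℤ) : ℕ :=
  sSup {w : ℕ | ∃ i j, w = ((f i).1 - (f j).1).natAbs}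

/-- the height (vertical extent) of a loop -/
noncomputable def height (m : ℕ) (f : ZMod m → ℤ × ℤ) : ℕ :=
  sSup {w : ℕ | ∃ i j, w = ((f i).2 - (f j).2).natAbs}

/-- the edge from `f k` to `f (k+1)` is horizontal, joins the columns `x = a` and `x = a + 1`, and
has height larger than `b`: it lies above the unit cell `[a, a+1] × [b, b+1]` -/
def Above (m : ℕ) (f : ZMod m → ℤ × ℤ) (a b : ℤ) (k : ZMod m) : Prop :=
  (((f k).1 = a ∧ (f (k + 1)).1 = a + 1) ∨ ((f k).1 = a + 1 ∧ (f (k + 1)).1 = a)) ∧ b < (f k).2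

/-- the unit cell `[a, a+1] × [b, b+1]` is enclosed by the loop: the vertical ray from the cell
upwards crosses an odd number of edges -/
def Encl (m : ℕ) (f : ZMod m → ℤ × ℤ) (c : ℤ × ℤ) : Prop :=
  Odd (Nat.card {k : ZMod m // Above m f c.1 c.2 k})

/-- the area: the number of unit cells enclosed by the loop -/
noncomputable def area (m : ℕ) (f : ZMod m → ℤ × ℤ) : ℕ := Nat.card {c : ℤ × ℤ // Encl m f c}

/-- for a property `P` which depends only on the polygon up to translation, the number of the
self-avoiding polygons of perimeter `2n` on `ℤ²` with the property `P`, up to translation: the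
number of the rooted oriented loops with `2n` steps and the property, divided by `4n` (the choices
of the starting point and of the orientation) -/
noncomputable def p (n : ℕ) (P : (ZMod (2 * n) → ℤ × ℤ) → Prop) : ℝ :=
  (Nat.card {f : ZMod (2 * n) → ℤ × ℤ // IsLoop (2 * n) f ∧ P f} : ℝ) / (4 * (n : ℝ))

lemma c_eq (n : ℕ) : (c n : ℝ) = H981.cr' n := by
  rw [H981.cr'_eq]
  unfold c H981.C H981.IsSAW
  congr 1
  apply Nat.card_congr
  apply Equiv.subtypeEquivRight
  intro f
  constructor
  · rintro ⟨h0, h1, h2⟩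
    exact ⟨h0, h2, h1⟩
  · rintro ⟨h0, h2, h1⟩
    exact ⟨h0, h1, h2⟩

open Pool.Agent.W870.Pg in
lemma p_le {n h : ℕ} (hn : 2 ≤ n) (P : (ZMod (2 * n) → ℤ × ℤ) → Prop)
    (hP : ∀ f, IsLoop (2 * n) f → P f → h ≤ width (2 * n) f + height (2 * n) f) :
    p n P ≤ (((open Classical in (LF (2 * n)).filter
      (fun f => h ≤ width (2 * n) f + height (2 * n) f)).card : ℕ) : ℝ) / (4 * n) := by
  classical
  have : NeZero (2 * n) := ⟨by omega⟩
  unfold p
  apply div_le_div_of_nonneg_right _ (by positivity)
  have h1 : Nat.card {f : ZMod (2 * n) → ℤ × ℤ // IsLoop (2 * n) f ∧ P f} ≤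
      Nat.card {f : ZMod (2 * n) → ℤ × ℤ // f ∈ (LF (2 * n)).filter
        (fun f => h ≤ width (2 * n) f + height (2 * n) f)} := by
    refine Nat.card_le_card_of_injective (fun f => ⟨f.1, ?_⟩) ?_
    · rw [Finset.mem_filter, mem_LF]
      exact ⟨f.2.1, hP f.1 f.2.1 f.2.2⟩
    · intro f g hfg
      exact Subtype.ext (congrArg (fun x => x.1) hfg)
  have h0 : ∀ S : Finset (ZMod (2 * n) → ℤ × ℤ), Nat.card {f // f ∈ S} = S.card := fun S => by
    rw [Nat.card_eq_fintype_card, Fintype.card_coe]
  rw [h0] at h1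
  have h2 : (Nat.card {f : ZMod (2 * n) → ℤ × ℤ // IsLoop (2 * n) f ∧ P f} : ℝ) ≤
      ((LF (2 * n)).filter (fun f => h ≤ width (2 * n) f + height (2 * n) f)).card := by
    exact_mod_cast h1
  convert h2

/-- **Theorem.** Let `μ` be the connective constant of `ℤ²`. There is a constant `K` such that for
all `n ≥ 2` and `h ≥ 1`: (1) the number of the self-avoiding polygons of perimeter `2n`, up to
translation, whose width or height is at least `h` is at most `K μ^(2n) / (h √n)`; (2) the number
of those of area at least `h` is at most `K μ^(2n) / √(h n)`. -/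
theorem result : ∃ μ : ℝ, 0 < μ ∧
    Tendsto (fun n : ℕ => (c n : ℝ) ^ ((1:ℝ) / (n : ℝ))) atTop (𝓝 μ) ∧
    ∃ K : ℝ, ∀ n h : ℕ, 2 ≤ n → 1 ≤ h →
      p n (fun f => h ≤ width (2 * n) f ∨ h ≤ height (2 * n) f) ≤
        K / (h * Real.sqrt n) * μ ^ (2 * n) ∧
      p n (fun f => h ≤ area (2 * n) f) ≤ K / Real.sqrt (h * n) * μ ^ (2 * n) := by
  have hmu := H981.mu_pos
  refine ⟨H981.mu, hmu, ?_, ?_⟩
  · simp only [c_eq]
    exact H981.tendsto_root
  · obtain ⟨K, hK0, hK⟩ := Pool.Agent.Y365.SP.wide
    refine ⟨2 * K, fun n h hn hh => ?_⟩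
    have : NeZero (2 * n) := ⟨by omega⟩
    have hn0 : (0 : ℝ) < n := by
      have : 0 < n := by omega
      exact_mod_cast this
    have hh0 : (0 : ℝ) < h := by exact_mod_cast hh
    have hsn : 0 < Real.sqrt n := Real.sqrt_pos.mpr hn0
    have hpow : 0 < H981.mu ^ (2 * n) := pow_pos hmu _
    constructor
    · refine (p_le (h := h) hn _ ?_).trans ((hK n h hn hh).trans ?_)
      · intro f _ hf
        rcases hf with hf | hf <;> omega
      · have h1 : K / (h * Real.sqrt n) ≤ 2 * K / (h * Real.sqrt n) := by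
          apply div_le_div_of_nonneg_right _ (by positivity)
          linarith
        exact mul_le_mul_of_nonneg_right h1 hpow.le
    · have hs : 0 < Real.sqrt h := Real.sqrt_pos.mpr hh0
      obtain ⟨b, hb⟩ : ∃ b : ℕ, b = ⌈Real.sqrt h / 2⌉₊ := ⟨_, rfl⟩
      have hb1 : Real.sqrt h / 2 ≤ b := by rw [hb]; exact Nat.le_ceil _
      have hb0 : 1 ≤ b := by
        rw [hb]
        exact Nat.ceil_pos.mpr (by positivity)
      refine (p_le (h := b) hn _ ?_).trans ((hK n b hn hb0).trans ?_)
      · intro f hf hf2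
        rw [hb, Nat.ceil_le]
        have hx : ∀ i, |(f i).1| ≤ ((width (2 * n) f + height (2 * n) f : ℕ) : ℤ) := by
          intro i
          have h1 := Pool.Agent.W870.Pg.le_width f i 0
          rw [hf.1] at h1
          change ((f i).1 - 0).natAbs ≤ width (2 * n) f at h1
          push_cast
          rw [abs_le]
          omega
        have hy : ∀ i, |(f i).2| ≤ ((width (2 * n) f + height (2 * n) f : ℕ) : ℤ) := by
          intro i
          have h1 := Pool.Agent.W870.Pg.le_height f i 0
          rw [hf.1] at h1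
          change ((f i).2 - 0).natAbs ≤ height (2 * n) f at h1
          push_cast
          rw [abs_le]
          omega
        have h3 : area (2 * n) f ≤ (2 * (width (2 * n) f + height (2 * n) f)) ^ 2 :=
          Pool.Agent.H924P.area_le hf.2.2 hx hy
        have h4 : (h : ℝ) ≤ (2 * ((width (2 * n) f + height (2 * n) f : ℕ) : ℝ)) ^ 2 := by
          exact_mod_cast hf2.trans h3
        have h5 : Real.sqrt h ≤ 2 * ((width (2 * n) f + height (2 * n) f : ℕ) : ℝ) := by
          rw [Real.sqrt_le_left (by positivity)]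
          exact h4
        linarith
      · apply mul_le_mul_of_nonneg_right _ hpow.le
        rw [Real.sqrt_mul hh0.le, div_le_div_iff₀ (by positivity) (by positivity)]
        have h1 : Real.sqrt h ≤ 2 * b := by linarith
        calc K * (Real.sqrt h * Real.sqrt n) ≤ K * ((2 * b) * Real.sqrt n) := by gcongr
          _ = _ := by ring

end Pool.Agent.Results.MP_376faf_co.WidePolygons
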